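import Mathlib

/-!
Abstract discharging theorem for the polynomial bound of helper67 (note 2663, MP_aaed04_an).

A finite system of chords (generalized diagonals): length `l`, opening `ρ`, distance of
directions `d`, short and long parts `e`, `g`. Chords with `ρ x < 1/100` are thin and have parts.
-/

namespace Pool.Agent.BillPoly

/-- The axioms about lengths, directions and parts. -/
structure Sys (α : Type) where
  l : α → ℝ
  ρ : α → ℝ
  d : α → α → ℝ
  e : α → α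
  g : α → α
  c : ℝ
  L : ℝ
  hc : 0 < c
  l_ge : ∀ x, c ≤ l x
  l_le : ∀ x, l x ≤ L
  d_nonneg : ∀ x y, 0 ≤ d x y
  d_self : ∀ x, d x x = 0
  d_symm : ∀ x y, d x y = d y x
  d_tri : ∀ x y z, d x z ≤ d x y + d y z
  ρ_pos : ∀ x, 0 < ρ x
  e_le : ∀ x, ρ x < 1 / 100 → l (e x) ≤ 2 / 3 * l x
  g_lt : ∀ x, ρ x < 1 / 100 → l (g x) < l x
  d_e_ge : ∀ x, ρ x < 1 / 100 → ρ x / 2 ≤ d x (e x)
  d_e_le : ∀ x, ρ x < 1 / 100 → d x (e x) ≤ ρ x
  away : ∀ x z, ρ x < 1 / 100 → d x z < 1 / 10 →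
    ∃ p, (p = e x ∨ p = g x) ∧ d p z = d x z + d x p ∧
      d x p ≤ 101 / 100 * ρ x * (1 - l p / l x)

variable {α : Type}

/-- One step of the decomposition, through a chord of opening smaller than `τ`. -/
def Sys.Step (S : Sys α) (τ : ℝ) (a b : α) : Prop :=
  S.ρ a < τ ∧ (b = S.e a ∨ b = S.g a)

/-- `b` is obtained from `a` by parts of chords of opening smaller than `τ`. -/
def Sys.Chain (S : Sys α) (τ : ℝ) : α → α → Prop := Relation.ReflTransGen (S.Step τ)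

/-- The set of the packing axiom. -/
def Sys.PackSet (S : Sys α) (u : α) (δ R h : ℝ) : Set α :=
  {x | S.Chain (5 * δ) x u ∧ S.d x u ≤ 5 * δ ∧ S.ρ x < 5 * δ ∧ S.l x ≤ R ∧
    h ≤ S.ρ x * S.l (S.e x)}

/-- The packing axiom, for all `δ ≤ D`. -/
def Sys.Packing (S : Sys α) (C D : ℝ) : Prop :=
  ∀ (u : α) (δ R h : ℝ), 0 < δ → δ ≤ D → 0 < h →
    ((S.PackSet u δ R h).ncard : ℝ) ≤ C * (1 + δ * R / h) ^ 2

end Pool.Agent.BillPoly
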