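import Pool.Agent.Lib_helper98.BillPoly.Defs

namespace Pool.Agent.BillPoly

open Finset
open scoped Classical

variable {α : Type}

namespace Sys

variable (S : Sys α)

theorem l_pos (x : α) : 0 < S.l x := lt_of_lt_of_le S.hc (S.l_ge x)

theorem Step.mono {S : Sys α} {τ τ' : ℝ} (h : τ ≤ τ') {a b : α} (hs : S.Step τ a b) :
    S.Step τ' a b := ⟨lt_of_lt_of_le hs.1 h, hs.2⟩

theorem Chain.mono {S : Sys α} {τ τ' : ℝ} (h : τ ≤ τ') {a b : α} (hs : S.Chain τ a b) :
    S.Chain τ' a b := by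
  induction hs with
  | refl => exact Relation.ReflTransGen.refl
  | tail _ h2 ih => exact Relation.ReflTransGen.tail ih (Step.mono h h2)

theorem part_lt {x p : α} (hx : S.ρ x < 1 / 100) (hp : p = S.e x ∨ p = S.g x) :
    S.l p < S.l x := by
  rcases hp with rfl | rfl
  · have := S.e_le x hx
    have := S.l_pos x
    linarith
  · exact S.g_lt x hx

theorem chain_le {τ : ℝ} (hτ : τ ≤ 1 / 100) {a b : α} (h : S.Chain τ a b) : S.l b ≤ S.l a := by
  induction h with
  | refl => exact le_refl _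
  | tail _ hs ih => exact le_trans (le_of_lt (S.part_lt (lt_of_lt_of_le hs.1 hτ) hs.2)) ih

/-- The measure of the induction. -/
noncomputable def ms [Fintype α] (y : α) : ℕ := (univ.filter (fun w => S.l w < S.l y)).card

theorem ms_lt [Fintype α] {p y : α} (h : S.l p < S.l y) : S.ms p < S.ms y := by
  unfold ms
  apply Finset.card_lt_card
  rw [Finset.ssubset_iff_of_subset]
  · exact ⟨p, by simp [h], by simp⟩
  · intro w hw
    simp only [mem_filter, mem_univ, true_and] at hw ⊢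
    linarith

/-- the elementary inequality of one step -/
theorem step_ineq {δ r q : ℝ} (hδ : 0 < δ) (hq0 : 0 < q) (hq1 : q ≤ 1) (hr0 : 0 ≤ r) (hr : r ≤ 5 * δ) :
    δ + 101 / 100 * r * (1 - q) ≤ δ * (1 / q) ^ 6 := by
  have h1 : 1 ≤ 1 / q := by
    rw [le_div_iff₀ hq0]; linarith
  have h2 : 1 - q ≤ 1 / q - 1 := by
    have : 1 / q - 1 - (1 - q) = (1 - q) ^ 2 / q := by field_simp
    have h3 : 0 ≤ (1 - q) ^ 2 / q := by positivity
    linarith
  set s := 1 / q with hs
  have h3 : 1 + 6 * (s - 1) ≤ s ^ 6 := by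
    nlinarith [sq_nonneg (s - 1), sq_nonneg (s^2 - 1), sq_nonneg (s^3 - 1), mul_nonneg (sub_nonneg.2 h1) (sub_nonneg.2 h1), pow_nonneg (by linarith : (0:ℝ) ≤ s) 2, pow_nonneg (by linarith : (0:ℝ) ≤ s) 3, pow_nonneg (by linarith : (0:ℝ) ≤ s) 4]
  have h4 : 101 / 100 * r * (1 - q) ≤ 101 / 100 * (5 * δ) * (1 - q) := by
    apply mul_le_mul_of_nonneg_right _ (by linarith)
    linarith
  have h5 : 101 / 100 * (5 * δ) * (1 - q) ≤ 6 * δ * (s - 1) := by
    nlinarith
  nlinarith

set_option linter.unusedSectionVars false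

variable [Fintype α]

/-- The output of a descent from `(y, z)`. -/
structure Out (y z u u' : α) : Prop where
  ch : S.Chain (5 * S.d u u') y u
  ch' : S.Chain (5 * S.d u u') z u'
  ge : S.d y z ≤ S.d u u'
  le : S.d u u' ≤ S.d y z * ((S.l y / S.l u) * (S.l z / S.l u')) ^ 6
  way : S.d y u ≤ S.d u u' - S.d y z
  way' : S.d z u' ≤ S.d u u' - S.d y z
  lk : 5 * S.d u u' ≤ S.ρ u
  lk' : 5 * S.d u u' ≤ S.ρ u'
  mv : u = y ∨ S.ρ y < 5 * S.d u u'
  mv' : u' = z ∨ S.ρ z < 5 * S.d u u'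
  len : S.l u ≤ S.l y
  len' : S.l u' ≤ S.l z

theorem Out.symm {S : Sys α} {y z u u' : α} (h : S.Out z y u' u) : S.Out y z u u' := by
  have e1 : S.d u' u = S.d u u' := S.d_symm _ _
  have e2 : S.d z y = S.d y z := S.d_symm _ _
  refine ⟨?_, ?_, ?_, ?_, ?_, ?_, ?_, ?_, ?_, ?_, ?_, ?_⟩
  · rw [← e1]; exact h.ch'
  · rw [← e1]; exact h.ch
  · rw [← e1, ← e2]; exact h.ge
  · rw [← e1, ← e2, mul_comm (S.l y / S.l u)]; exact h.le
  · rw [← e1, ← e2]; exact h.way'
  · rw [← e1, ← e2]; exact h.way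
  · rw [← e1]; exact h.lk'
  · rw [← e1]; exact h.lk
  · rw [← e1]; exact h.mv'
  · rw [← e1]; exact h.mv
  · exact h.len'
  · exact h.len

theorem one_le_prod (y z : α) : 1 ≤ ((S.l y / S.c) * (S.l z / S.c)) ^ 6 := by
  have h1 : 1 ≤ S.l y / S.c := by rw [le_div_iff₀ S.hc]; linarith [S.l_ge y]
  have h2 : 1 ≤ S.l z / S.c := by rw [le_div_iff₀ S.hc]; linarith [S.l_ge z]
  exact one_le_pow₀ (by nlinarith)

/-- one step of the descent, for the first chord -/
theorem descent_step {D : ℝ} (hD : 5 * D < 1 / 100) {y z : α} (h0 : 0 < S.d y z)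
    (h1 : S.d y z * ((S.l y / S.c) * (S.l z / S.c)) ^ 6 ≤ D) (hy : S.ρ y < 5 * S.d y z)
    (IH : ∀ p, S.ms p < S.ms y → 0 < S.d p z →
      S.d p z * ((S.l p / S.c) * (S.l z / S.c)) ^ 6 ≤ D → ∃ u u', S.Out p z u u') :
    ∃ u u', S.Out y z u u' := by
  have hdD : S.d y z ≤ D := by
    have := S.one_le_prod y z
    nlinarith
  have hyt : S.ρ y < 1 / 100 := by linarith
  obtain ⟨p, hp, hpz, hyp⟩ := S.away y z hyt (by linarith)
  have hlt := S.part_lt hyt hp
  have hlp := S.l_pos p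
  have hly := S.l_pos y
  have hlz := S.l_pos z
  have hc := S.hc
  have hq0 : 0 < S.l p / S.l y := div_pos hlp hly
  have hq1 : S.l p / S.l y ≤ 1 := by rw [div_le_one hly]; exact hlt.le
  have hst := step_ineq h0 hq0 hq1 (S.ρ_pos y).le hy.le
  have hdp : S.d p z ≤ S.d y z * (S.l y / S.l p) ^ 6 := by
    rw [one_div_div] at hst
    linarith
  have hpz0 : 0 < S.d p z := by rw [hpz]; linarith [S.d_nonneg y p]
  have hcomb : S.d p z * ((S.l p / S.c) * (S.l z / S.c)) ^ 6 ≤ D := by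
    refine le_trans (mul_le_mul_of_nonneg_right hdp (by positivity)) ?_
    refine le_trans (le_of_eq ?_) h1
    field_simp
  obtain ⟨u, u', ho⟩ := IH p (S.ms_lt hlt) hpz0 hcomb
  have hge : S.d y z ≤ S.d u u' := by
    have := ho.ge
    rw [hpz] at this
    linarith [S.d_nonneg y p]
  have hlu := S.l_pos u
  have hlu' := S.l_pos u'
  refine ⟨u, u', ?_, ho.ch', hge, ?_, ?_, ?_, ho.lk, ho.lk', ?_, ho.mv', ?_, ho.len'⟩
  · exact Relation.ReflTransGen.head ⟨by linarith, hp⟩ ho.ch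
  · refine le_trans ho.le ?_
    refine le_trans (mul_le_mul_of_nonneg_right hdp (by positivity)) (le_of_eq ?_)
    field_simp
  · have t := S.d_tri y p u
    have w := ho.way
    rw [hpz] at w
    linarith
  · have w := ho.way'
    rw [hpz] at w
    linarith [S.d_nonneg y p]
  · right; linarith
  · exact le_trans ho.len hlt.le

theorem descent {D : ℝ} (hD : 5 * D < 1 / 100) : ∀ (N : ℕ) (y z : α), S.ms y + S.ms z ≤ N →
    0 < S.d y z → S.d y z * ((S.l y / S.c) * (S.l z / S.c)) ^ 6 ≤ D → ∃ u u', S.Out y z u u' := by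
  intro N
  induction N using Nat.strong_induction_on with
  | _ N IH =>
    intro y z hN h0 h1
    by_cases hy : S.ρ y < 5 * S.d y z
    · apply S.descent_step hD h0 h1 hy
      intro p hp hpz hpc
      exact IH (S.ms p + S.ms z) (by omega) p z le_rfl hpz hpc
    · by_cases hz : S.ρ z < 5 * S.d y z
      · have hs : S.d z y = S.d y z := S.d_symm _ _
        have h1' : S.d z y * ((S.l z / S.c) * (S.l y / S.c)) ^ 6 ≤ D := by
          rw [hs, mul_comm (S.l z / S.c)]; exact h1
        obtain ⟨u, u', ho⟩ := S.descent_step hD (by rw [hs]; exact h0) h1' (by rw [hs]; exact hz) (by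
          intro p hp hpz hpc
          exact IH (S.ms p + S.ms y) (by omega) p y le_rfl hpz hpc)
        exact ⟨u', u, Out.symm ho⟩
      · push Not at hy hz
        have hly := S.l_pos y
        have hlz := S.l_pos z
        refine ⟨y, z, Relation.ReflTransGen.refl, Relation.ReflTransGen.refl, le_rfl, ?_, ?_, ?_, hy, hz,
          Or.inl rfl, Or.inl rfl, le_rfl, le_rfl⟩
        · rw [div_self hly.ne', div_self hlz.ne']; simp
        · rw [S.d_self]; simp
        · rw [S.d_self]; simp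

end Sys

end Pool.Agent.BillPoly
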