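import Mathlib

namespace Pool.Agent.BillPoly

open Finset
open scoped Classical

theorem sum_inv_sq (M : ℕ) : ∑ i ∈ range (M + 1), 1 / ((i : ℝ) + 1) ^ 2 ≤ 2 - 1 / ((M : ℝ) + 1) := by
  induction M with
  | zero => norm_num
  | succ M ih =>
    rw [Finset.sum_range_succ]
    have h : 1 / (((M + 1 : ℕ) : ℝ) + 1) ^ 2 ≤ 1 / ((M : ℝ) + 1) - 1 / (((M + 1 : ℕ) : ℝ) + 1) := by
      have hM : (0 : ℝ) ≤ M := Nat.cast_nonneg M
      push_cast
      rw [div_sub_div _ _ (by positivity) (by positivity), div_le_div_iff₀ (by positivity) (by positivity)]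
      nlinarith
    linarith

/-- A layer sum: at most `K * T ^ p` elements have `t ≤ T`. -/
theorem layer_sum {β : Type} (Y : Finset β) (t : β → ℝ) (K : ℝ) (p b : ℕ) (hK : 0 ≤ K)
    (ht : ∀ y ∈ Y, 3 / 2 ≤ t y)
    (hc : ∀ T : ℝ, 1 ≤ T → ((Y.filter (fun y => t y ≤ T)).card : ℝ) ≤ K * T ^ p) :
    ∑ y ∈ Y, (1 / t y) ^ (p + 2 + b) ≤ (2 / 3) ^ b * (K * 2 ^ (p + 1)) := by
  set g : β → ℕ := fun y => ⌈t y⌉₊ - 2 with hg
  set M : ℕ := Y.sup g with hM
  have hgM : ∀ y ∈ Y, g y ∈ range (M + 1) := by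
    intro y hy
    rw [Finset.mem_range]
    exact Nat.lt_succ_of_le (Finset.le_sup (f := g) hy)
  have h2 : ∀ y ∈ Y, 2 ≤ ⌈t y⌉₊ := by
    intro y hy
    have h1 : 1 < t y := by linarith [ht y hy]
    have : 1 < ⌈t y⌉₊ := by
      rw [Nat.lt_ceil]
      simpa using h1
    omega
  have hlow : ∀ y ∈ Y, ((g y : ℝ) + 1) < t y := by
    intro y hy
    have h := h2 y hy
    have h3 : (g y : ℝ) + 1 = ((⌈t y⌉₊ - 1 : ℕ) : ℝ) := by
      have : ⌈t y⌉₊ - 1 = g y + 1 := by simp only [hg]; omega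
      rw [this]; push_cast; ring
    rw [h3]
    have h4 : ⌈t y⌉₊ - 1 < ⌈t y⌉₊ := by omega
    exact Nat.lt_ceil.1 h4
  have hupp : ∀ y ∈ Y, t y ≤ (g y : ℝ) + 2 := by
    intro y hy
    have h := h2 y hy
    have h3 : (g y : ℝ) + 2 = (⌈t y⌉₊ : ℝ) := by
      have : ⌈t y⌉₊ = g y + 2 := by simp only [hg]; omega
      rw [this]; push_cast; ring
    rw [h3]
    exact Nat.le_ceil _
  have hterm : ∀ y ∈ Y, (1 / t y) ^ (p + 2 + b) ≤ (2 / 3) ^ b * (1 / ((g y : ℝ) + 1)) ^ (p + 2) := by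
    intro y hy
    have h0 : 0 < t y := by linarith [ht y hy]
    rw [pow_add, mul_comm]
    have h1 : (1 / t y) ^ b ≤ (2 / 3) ^ b := by
      apply pow_le_pow_left₀ (by positivity)
      rw [div_le_div_iff₀ h0 (by norm_num)]
      linarith [ht y hy]
    have h3 : (1 / t y) ^ (p + 2) ≤ (1 / ((g y : ℝ) + 1)) ^ (p + 2) := by
      apply pow_le_pow_left₀ (by positivity)
      apply one_div_le_one_div_of_le (by positivity)
      exact (hlow y hy).le
    exact mul_le_mul h1 h3 (by positivity) (by positivity)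
  calc ∑ y ∈ Y, (1 / t y) ^ (p + 2 + b)
      ≤ ∑ y ∈ Y, (2 / 3) ^ b * (1 / ((g y : ℝ) + 1)) ^ (p + 2) := Finset.sum_le_sum hterm
    _ = (2 / 3) ^ b * ∑ y ∈ Y, (1 / ((g y : ℝ) + 1)) ^ (p + 2) := by rw [Finset.mul_sum]
    _ = (2 / 3) ^ b * ∑ m ∈ range (M + 1), ∑ y ∈ Y with g y = m, (1 / ((g y : ℝ) + 1)) ^ (p + 2) := by
        rw [Finset.sum_fiberwise_of_maps_to hgM]
    _ ≤ (2 / 3) ^ b * ∑ m ∈ range (M + 1), K * 2 ^ p * (1 / ((m : ℝ) + 1) ^ 2) := by
        apply mul_le_mul_of_nonneg_left _ (by positivity)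
        apply Finset.sum_le_sum
        intro m _
        have e1 : ∑ y ∈ Y with g y = m, (1 / ((g y : ℝ) + 1)) ^ (p + 2) =
            ((Y.filter (fun y => g y = m)).card : ℝ) * (1 / ((m : ℝ) + 1)) ^ (p + 2) := by
          rw [Finset.sum_congr rfl (g := fun _ => (1 / ((m : ℝ) + 1)) ^ (p + 2))]
          · rw [Finset.sum_const, nsmul_eq_mul]
          · intro y hy
            rw [(Finset.mem_filter.1 hy).2]
        rw [e1]
        have hm0 : (0 : ℝ) ≤ m := Nat.cast_nonneg m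
        have e2 : ((Y.filter (fun y => g y = m)).card : ℝ) ≤ K * ((m : ℝ) + 2) ^ p := by
          refine le_trans ?_ (hc ((m : ℝ) + 2) (by linarith))
          have hsub : (Y.filter (fun y => g y = m)) ⊆ (Y.filter (fun y => t y ≤ (m : ℝ) + 2)) := by
            intro y hy
            rw [Finset.mem_filter] at hy ⊢
            refine ⟨hy.1, ?_⟩
            have := hupp y hy.1
            rw [hy.2] at this
            exact this
          exact Nat.cast_le.2 (Finset.card_le_card hsub)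
        have e3 : ((m : ℝ) + 2) ^ p ≤ 2 ^ p * ((m : ℝ) + 1) ^ p := by
          rw [← mul_pow]
          apply pow_le_pow_left₀ (by positivity)
          linarith
        calc ((Y.filter (fun y => g y = m)).card : ℝ) * (1 / ((m : ℝ) + 1)) ^ (p + 2)
            ≤ (K * (2 ^ p * ((m : ℝ) + 1) ^ p)) * (1 / ((m : ℝ) + 1)) ^ (p + 2) := by
              apply mul_le_mul_of_nonneg_right _ (by positivity)
              exact le_trans e2 (mul_le_mul_of_nonneg_left e3 hK)
          _ = K * 2 ^ p * (1 / ((m : ℝ) + 1) ^ 2) := by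
              have hm1 : (m : ℝ) + 1 ≠ 0 := by positivity
              rw [one_div_pow, pow_add]
              field_simp
    _ ≤ (2 / 3) ^ b * (K * 2 ^ (p + 1)) := by
        apply mul_le_mul_of_nonneg_left _ (by positivity)
        rw [← Finset.mul_sum, pow_succ]
        have := sum_inv_sq M
        have h5 : 0 ≤ 1 / ((M : ℝ) + 1) := by positivity
        have h6 : 0 ≤ K * 2 ^ p := by positivity
        nlinarith

theorem exists_exp (Q ε : ℝ) (hε : 0 < ε) : ∃ b : ℕ, (2 / 3 : ℝ) ^ b * Q ≤ ε := by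
  have h := (tendsto_pow_atTop_nhds_zero_of_lt_one (by norm_num : (0 : ℝ) ≤ 2 / 3)
    (by norm_num : (2 / 3 : ℝ) < 1)).mul_const Q
  rw [zero_mul] at h
  have h2 := h.eventually (gt_mem_nhds hε)
  obtain ⟨b, hb⟩ := h2.exists
  exact ⟨b, hb.le⟩

/-- Union bound. -/
theorem union_bound {ι κ : Type} [Fintype ι] [Fintype κ] (Q : κ → Prop) (P : κ → ι → Prop)
    (f : ι → ℝ) (hf : ∀ i, 0 ≤ f i) :
    ∑ i, (if ∃ j, Q j ∧ P j i then f i else 0) ≤
      ∑ j, (if Q j then ∑ i, (if P j i then f i else 0) else 0) := by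
  have h1 : ∀ i, (if ∃ j, Q j ∧ P j i then f i else 0) ≤
      ∑ j, (if Q j then (if P j i then f i else 0) else 0) := by
    intro i
    have hn : ∀ j ∈ (univ : Finset κ), 0 ≤ (if Q j then (if P j i then f i else 0) else 0) := by
      intro j _
      have := hf i
      split_ifs <;> first | exact this | exact le_refl _
    by_cases h : ∃ j, Q j ∧ P j i
    · rw [if_pos h]
      obtain ⟨j, hj1, hj2⟩ := h
      have h2 := Finset.single_le_sum hn (Finset.mem_univ j)
      rw [if_pos hj1, if_pos hj2] at h2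
      exact h2
    · rw [if_neg h]
      exact Finset.sum_nonneg hn
  refine le_trans (Finset.sum_le_sum (fun i _ => h1 i)) ?_
  rw [Finset.sum_comm]
  apply Finset.sum_le_sum
  intro j _
  by_cases h : Q j
  · simp [h]
  · simp [h]

end Pool.Agent.BillPoly
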